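import Pool.Agent.H73.GWT.Stmts

/-!
# Row `RW2` of the board `gwt`: types are rare for random words
-/

set_option autoImplicit false

open Classical

namespace GWT

variable {ι G V : Type*} [Fintype ι] [Group G] [MulAction G V] (C : Code ι G V)

/-- the fourth powers of the code are different -/
theorem rw2_inj (s t : ι) (h : C.c s ^ 4 = C.c t ^ 4) : s = t := by
  have key : ∀ s : ι, Bt C.T C.o (C.c s • C.o) ((C.c s) ^ 4 • C.o) := by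
    intro s
    have h3 : C.T.dist (C.c s • C.o) ((C.c s) ^ 4 • C.o) ≤ 3 * C.Λ := by
      have e1 : (C.c s) ^ 4 • C.o = C.c s • (C.c s) ^ 3 • C.o := by
        rw [← mul_smul, ← pow_succ']
      rw [e1, C.ds]
      have e2 : C.T.dist C.o ((C.c s) ^ 2 • C.o) ≤ 2 * C.Λ := by
        have t1 := dtri C.tree C.o (C.c s • C.o) ((C.c s) ^ 2 • C.o)
        have e3 : (C.c s) ^ 2 • C.o = C.c s • C.c s • C.o := by
          rw [← mul_smul, ← pow_two]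
        rw [e3, C.ds, C.d1] at t1
        rw [e3]
        omega
      have t2 := dtri C.tree C.o (C.c s • C.o) ((C.c s) ^ 3 • C.o)
      have e4 : (C.c s) ^ 3 • C.o = C.c s • (C.c s) ^ 2 • C.o := by
        rw [← mul_smul, ← pow_succ']
      rw [e4, C.ds, C.d1] at t2
      rw [e4]
      omega
    have h4 := C.d4 s
    have h5 := C.d1 s
    have h6 := dtri C.tree C.o (C.c s • C.o) ((C.c s) ^ 4 • C.o)
    unfold Bt
    omega
  have h1 := key s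
  have h2 := key t
  rw [h] at h1
  have h3 := UNQ C.tree h1 h2 (by rw [C.d1, C.d1])
  exact C.p3 s t 1 (one_smul _ _) (by rw [one_smul]; exact h3)

/-- the number of code words -/
theorem rw2_card {S : Type*} [Fintype S] (e : S → G) (wd : ι → List S) (k₀ : ℕ)
    (hl : ∀ s, (wd s).length = k₀) (he : ∀ s, GWP.ev e (wd s) = C.c s ^ 4) :
    C.M ^ 4 ≤ Fintype.card S ^ k₀ := by
  let f : ι → List.Vector S k₀ := fun s => ⟨wd s, hl s⟩
  have hinj : Function.Injective f := by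
    intro s t h
    have h1 : wd s = wd t := congrArg Subtype.val h
    exact rw2_inj C s t (by rw [← he s, ← he t, h1])
  have h2 := Fintype.card_le_of_injective f hinj
  rwa [C.card, card_vector] at h2

/-- powers along multiples of `k₀` -/
theorem rw2_pow (ρ : ℝ) (h0 : 0 < ρ) (h1 : ρ < 1) (k₀ : ℕ) (hk : 1 ≤ k₀) :
    ∃ κ : ℝ, 0 < κ ∧ κ < 1 ∧ ∀ r : ℕ, ρ ^ (r / k₀) ≤ ρ⁻¹ * κ ^ r := by
  have hk0 : (0 : ℝ) < k₀ := by exact_mod_cast hk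
  refine ⟨ρ ^ ((k₀ : ℝ)⁻¹), Real.rpow_pos_of_pos h0 _,
    Real.rpow_lt_one h0.le h1 (inv_pos.2 hk0), ?_⟩
  intro r
  have hκ0 : 0 < ρ ^ ((k₀ : ℝ)⁻¹) := Real.rpow_pos_of_pos h0 _
  have hκ1 : ρ ^ ((k₀ : ℝ)⁻¹) ≤ 1 := (Real.rpow_lt_one h0.le h1 (inv_pos.2 hk0)).le
  have hk2 : (ρ ^ ((k₀ : ℝ)⁻¹)) ^ k₀ = ρ := by
    rw [← Real.rpow_natCast, ← Real.rpow_mul h0.le, inv_mul_cancel₀ hk0.ne', Real.rpow_one]
  have hr : r ≤ k₀ * (r / k₀ + 1) := by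
    have := Nat.div_add_mod r k₀
    have := Nat.mod_lt r (show 0 < k₀ by omega)
    rw [Nat.mul_add, mul_one]
    omega
  have h2 : (ρ ^ ((k₀ : ℝ)⁻¹)) ^ (k₀ * (r / k₀ + 1)) ≤ (ρ ^ ((k₀ : ℝ)⁻¹)) ^ r :=
    pow_le_pow_of_le_one hκ0.le hκ1 hr
  rw [pow_mul, hk2, pow_succ] at h2
  rw [inv_mul_eq_div, le_div_iff₀ h0]
  exact h2

theorem RW2 (S : Type*) [Fintype S] (h1 : RWBStmt C S) (h2 : PV2Stmt C) : RW2Stmt C S := by
  intro e wd k₀ t hk hl he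
  have hM : (32 : ℝ) ≤ C.M := by exact_mod_cast C.M_big
  have hM4 : (0 : ℝ) < (C.M : ℝ) ^ 4 := by positivity
  have hcard : ((C.M : ℝ)) ^ 4 ≤ (Fintype.card S : ℝ) ^ k₀ := by
    exact_mod_cast rw2_card C e wd k₀ hl he
  have hq : (0 : ℝ) < (Fintype.card S : ℝ) ^ k₀ := lt_of_lt_of_le hM4 hcard
  have hδ0 : 0 < (C.M : ℝ) ^ 4 / 2 / (Fintype.card S : ℝ) ^ k₀ := by positivity
  have hδ1 : (C.M : ℝ) ^ 4 / 2 / (Fintype.card S : ℝ) ^ k₀ < 1 := by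
    rw [div_lt_one hq]
    linarith
  obtain ⟨κ, k1, k2, k3⟩ := rw2_pow (1 - (C.M : ℝ) ^ 4 / 2 / (Fintype.card S : ℝ) ^ k₀)
    (by linarith) (by linarith) k₀ hk
  have hA : (0 : ℝ) < (C.M : ℝ) ^ (8 * t + 8) := by positivity
  have hρ : (0 : ℝ) < 1 - (C.M : ℝ) ^ 4 / 2 / (Fintype.card S : ℝ) ^ k₀ := by linarith
  refine ⟨κ, (C.M : ℝ) ^ (8 * t + 8) *
    (1 - (C.M : ℝ) ^ 4 / 2 / (Fintype.card S : ℝ) ^ k₀)⁻¹, k1, k2, by positivity, ?_⟩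
  intro r t₁ t₂ Q P ht1 ht2
  have h3 := h1 e wd k₀ (fun g => if Tp C g t₁ t₂ Q P then (1 : ℝ) else 0)
    ((C.M : ℝ) ^ (8 * t + 8)) hk hl he hA.le
    (fun g => by
      show 0 ≤ if Tp C g t₁ t₂ Q P then (1 : ℝ) else 0
      split_ifs
      · exact zero_le_one
      · exact le_refl _)
    (fun w m => h2 w m t t₁ t₂ Q P ht1 ht2) r
  refine le_trans h3 ?_
  have h4 := k3 r
  have h5 : (0 : ℝ) ≤ (C.M : ℝ) ^ (8 * t + 8) * (Fintype.card S : ℝ) ^ r := by positivity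
  calc (C.M : ℝ) ^ (8 * t + 8) * (Fintype.card S : ℝ) ^ r *
        (1 - (C.M : ℝ) ^ 4 / 2 / (Fintype.card S : ℝ) ^ k₀) ^ (r / k₀)
      ≤ (C.M : ℝ) ^ (8 * t + 8) * (Fintype.card S : ℝ) ^ r *
        ((1 - (C.M : ℝ) ^ 4 / 2 / (Fintype.card S : ℝ) ^ k₀)⁻¹ * κ ^ r) :=
        mul_le_mul_of_nonneg_left h4 h5
    _ = _ := by ring

end GWT
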